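import Mathlib
import Pool.Agent.Helper93.WanDefs
import Pool.Agent.Helper93.WanMain
import Pool.Agent.Helper93.Frob

set_option autoImplicit false

namespace Pool.Agent.Results.MP_6895b2_nt.WanSplitting

open Pool.Agent.Helper93

/-- Sanity check (not needed below): every closed point outside `S` has exactly one Frobenius
element, so that `ZpTower.frob` is well defined there. -/
theorem existsUnique_frobenius {p : ℕ} [Fact p.Prime] {k K L : Type*} [Field k] [Finite k]
    [Field K] [Algebra k K] [Field L] [Algebra K L] (hK : IsCurveFunctionField k K)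
    (T : ZpTower p k K L) (x : ClosedPoint k K) (hx : x ∉ T.S) :
    (∃! σ : Gal(L/K), x.IsFrobenius σ) ∧ x.IsFrobenius (ZpTower.frob x : Gal(L/K)) :=
  ⟨existsUnique_isFrobenius hK T x hx, isFrobenius_frob hK T x hx⟩

/-- Sanity check: the set of closed points over which the product in the definition of
`ZpTower.LFunction` is taken is finite, and every closed point has positive degree. -/
theorem finite_closedPoints {p : ℕ} [Fact p.Prime] {k K L : Type*} [Field k] [Finite k]
    [Field K] [Algebra k K] [Field L] [Algebra K L] (hK : IsCurveFunctionField k K)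
    (T : ZpTower p k K L) (m : ℕ) :
    {x : ClosedPoint k K | x ∉ T.S ∧ x.deg ≤ m}.Finite ∧ ∀ x : ClosedPoint k K, 0 < x.deg :=
  ⟨(finite_deg_le hK.finitelyGenerated hK.trdeg_eq_one m).subset fun _ hx => hx.2,
    deg_pos hK.finitelyGenerated hK.trdeg_eq_one⟩

/-- For every `ℤ_p`-tower over a curve over a finite field there is a constant `C` such that, for
every `n ≥ 1` and every primitive character `χ_n` of `G_n` (a character of `Gal(L/K) ≅ ℤ_p` of
exact order `p ^ n`), if `P ∈ ℂ_p[s]` is the polynomial `L(χ_n, s)`, then the field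
`L_{p,n}` generated over `ℚ_p` by all roots of `P` satisfies `p ^ n ≤ C * [L_{p,n} : ℚ_p]`. -/
theorem result {p : ℕ} [Fact p.Prime] {k K L : Type*} [Field k] [Finite k]
    [Field K] [Algebra k K] [Field L] [Algebra K L] (hK : IsCurveFunctionField k K)
    (T : ZpTower p k K L) :
    ∃ C : ℕ, ∀ n : ℕ, 1 ≤ n → ∀ χ : Gal(L/K) →* ℂ_[p]ˣ, orderOf χ = p ^ n →
      ∀ P : Polynomial ℂ_[p], (P : PowerSeries ℂ_[p]) = T.LFunction χ →
        p ^ n ≤ C * Module.finrank ℚ_[p]
          (IntermediateField.adjoin ℚ_[p] {z : ℂ_[p] | P.IsRoot z}) :=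
  wan_main hK T

end Pool.Agent.Results.MP_6895b2_nt.WanSplitting
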